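import Pool.Agent.H80.LRC.SimComplete

/-!
# The least number of right random context rules is zero
-/

namespace Pool.Agent.Results.MP_05b2f7_lc.KMinZero

open Pool.Agent.H80.LRC

/-- `k_min = 0`: the least `k` such that every recursively enumerable language over every finite
alphabet is generated by a one-sided random context grammar with at most `k` right random context
rules is `0`.  In other words, left random context grammars (with erasing rules) generate every
recursively enumerable language. -/
theorem result :
    IsLeast {k : ℕ | ∀ (T : Type) [Finite T] [Primcodable T] (L : Language T),
      REPred (fun w : List T => w ∈ L) →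
        ∃ G : ORCGrammar T, G.PR.encard ≤ k ∧ G.language = L} 0 := by
  refine ⟨?_, fun k _ => Nat.zero_le k⟩
  intro T _ _ L hL
  obtain ⟨G, h1, h2⟩ := exists_left_grammar L hL
  exact ⟨G, by simp [h1], h2⟩

end Pool.Agent.Results.MP_05b2f7_lc.KMinZero
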